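import Mathlib

/-!
Basic API for convex bodies seen from an interior point `o`: the radial function `rho`.
-/

namespace Pool.Agent.Graze77

open Set Metric Topology Filter

set_option linter.unusedSectionVars false

variable {V : Type*} [NormedAddCommGroup V] [NormedSpace ℝ V]

/-- The graze of `M` from `x`: the points of `M` touched by the lines through `x`
that meet `M` but not the interior of `M`. -/
def Graze (M : Set V) (x : V) : Set V :=
  {y | y ∈ M ∧ ∀ t : ℝ, x + t • (y - x) ∉ interior M}

/-- The gauge of `M` seen from `o`. -/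
noncomputable def rho (M : Set V) (o : V) (v : V) : ℝ := gauge ((fun v => o + v) ⁻¹' M) v

section basic

variable {M : Set V} {o : V}

lemma conv_pre (hc : Convex ℝ M) : Convex ℝ ((fun v => o + v) ⁻¹' M) :=
  hc.translate_preimage_right o

lemma pre_eq_homeo : ((fun v => o + v) ⁻¹' M) = (Homeomorph.addLeft o) ⁻¹' M := rfl

lemma interior_pre : interior ((fun v => o + v) ⁻¹' M) = (fun v => o + v) ⁻¹' (interior M) := by
  have := (Homeomorph.addLeft o).preimage_interior M
  exact this.symm

lemma frontier_pre : frontier ((fun v => o + v) ⁻¹' M) = (fun v => o + v) ⁻¹' (frontier M) := by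
  have := (Homeomorph.addLeft o).preimage_frontier M
  exact this.symm

lemma closure_pre : closure ((fun v => o + v) ⁻¹' M) = (fun v => o + v) ⁻¹' (closure M) := by
  have := (Homeomorph.addLeft o).preimage_closure M
  exact this.symm

lemma pre_nhds (ho : o ∈ interior M) : ((fun v => o + v) ⁻¹' M) ∈ 𝓝 (0 : V) := by
  rw [_root_.mem_nhds_iff]
  refine ⟨(fun v => o + v) ⁻¹' (interior M), preimage_mono interior_subset, ?_, by simpa using ho⟩
  exact isOpen_interior.preimage (by fun_prop)

lemma rho_cont (hc : Convex ℝ M) (ho : o ∈ interior M) : Continuous (rho M o) :=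
  continuous_gauge (conv_pre hc) (pre_nhds ho)

lemma rho_smul {t : ℝ} (ht : 0 ≤ t) (v : V) : rho M o (t • v) = t * rho M o v := by
  have := gauge_smul_of_nonneg (s := (fun v => o + v) ⁻¹' M) ht v
  simpa [rho] using this

lemma rho_zero : rho M o 0 = 0 := by simp [rho]

lemma rho_nonneg (v : V) : 0 ≤ rho M o v := gauge_nonneg v

lemma rho_pos (hb : Bornology.IsBounded M) (ho : o ∈ interior M) {v : V} (hv : v ≠ 0) :
    0 < rho M o v := by
  have h1 : Absorbent ℝ ((fun v => o + v) ⁻¹' M) := absorbent_nhds_zero (pre_nhds ho)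
  have h2 : Bornology.IsVonNBounded ℝ ((fun v => o + v) ⁻¹' M) := by
    rw [NormedSpace.isVonNBounded_iff]
    obtain ⟨r, hr⟩ := hb.exists_norm_le
    refine isBounded_iff_forall_norm_le.2 ⟨r + ‖o‖, fun x hx => ?_⟩
    have h3 := hr (o + x) hx
    calc ‖x‖ = ‖(o + x) - o‖ := by congr 1; abel
      _ ≤ ‖o + x‖ + ‖o‖ := norm_sub_le _ _
      _ ≤ r + ‖o‖ := by linarith
  exact (gauge_pos h1 h2).2 hv

lemma rho_le_one_iff (hcl : IsClosed M) (hc : Convex ℝ M) (ho : o ∈ interior M) {v : V} :
    rho M o v ≤ 1 ↔ o + v ∈ M := by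
  have := gauge_le_one_iff_mem_closure (x := v) (conv_pre (o := o) hc) (pre_nhds ho)
  rw [closure_pre, hcl.closure_eq] at this
  exact this

lemma rho_lt_one_iff (hc : Convex ℝ M) (ho : o ∈ interior M) {v : V} :
    rho M o v < 1 ↔ o + v ∈ interior M := by
  have := gauge_lt_one_iff_mem_interior (x := v) (conv_pre (o := o) hc) (pre_nhds ho)
  rw [interior_pre] at this
  exact this

lemma rho_eq_one_iff (hc : Convex ℝ M) (ho : o ∈ interior M) {v : V} :
    rho M o v = 1 ↔ o + v ∈ frontier M := by
  have := gauge_eq_one_iff_mem_frontier (x := v) (conv_pre (o := o) hc) (pre_nhds ho)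
  rw [frontier_pre] at this
  exact this

lemma rho_sub_le (hc : Convex ℝ M) (ho : o ∈ interior M) (v w : V) :
    rho M o (v + w) ≤ rho M o v + rho M o w :=
  gauge_add_le (conv_pre hc) (absorbent_nhds_zero (pre_nhds ho)) v w

/-- the exit point of the ray from `o` in direction `v` -/
lemma exit_mem (hb : Bornology.IsBounded M) (hc : Convex ℝ M) (ho : o ∈ interior M) {v : V}
    (hv : v ≠ 0) : o + (rho M o v)⁻¹ • v ∈ frontier M := by
  rw [← rho_eq_one_iff hc ho, rho_smul (inv_nonneg.2 (rho_nonneg v))]
  exact inv_mul_cancel₀ (rho_pos hb ho hv).ne'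

end basic

end Pool.Agent.Graze77
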