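import Pool.Agent.Graze77.Sections
import Pool.Agent.Helper28.FG.Base
import Pool.Agent.Helper28.FG.Quad

/-!
Bridge between the local theorem in dimension three (in the form used in `Helper28.FG`) and
`Core3`.
-/

namespace Pool.Agent.Graze77

open Set Metric Topology Filter

/-- The local theorem in dimension three. -/
def Local3 : Prop := ∀ (M K : Set E3), Pool.Agent.Helper28.FG.GP M K →
  ∀ p ∈ frontier M, ∃ r > 0, ∃ q : E3 → ℝ, Pool.Agent.Helper28.FG.IsQuad q ∧ (∃ y, q y ≠ 0) ∧
    ∀ s ∈ frontier M ∩ Metric.ball p r, q s = 0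

theorem isQuadPoly_of_isQuad {q : E3 → ℝ} (h : Pool.Agent.Helper28.FG.IsQuad q) :
    IsQuadPoly q := by
  obtain ⟨B, L, c, h⟩ := h
  refine ⟨LinearMap.BilinMap.toQuadraticMap B, L, c, fun v => ?_⟩
  rw [h]
  rfl

theorem core3_of_local3 (h : Local3) : Core3 := by
  intro M K hM hMc hMi hK hKc hMK hfl p hp
  have hGP : Pool.Agent.Helper28.FG.GP M K :=
    { Mc := hM
      Mcv := hMc
      Mint := hMi
      Kc := hK
      Kcv := hKc
      MK := hMK
      fl := by
        intro x hx
        obtain ⟨η, hη⟩ := hfl x hx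
        refine ⟨-η, fun q hq hq2 => ?_⟩
        have h1 := hη q ⟨hq, hq2⟩
        rw [← neg_sub, map_neg]
        simp only [neg_apply, neg_neg]
        exact h1 }
  obtain ⟨r, hr, q, hq, hq0, hqM⟩ := h M K hGP p hp
  exact ⟨ball p r, ball_mem_nhds p hr, q, isQuadPoly_of_isQuad hq, hq0,
    fun y hy hyr => hqM y ⟨hy, hyr⟩⟩

end Pool.Agent.Graze77
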