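import Pool.Agent.Graze77.LocalGlobal

/-!
From quadratic polynomials vanishing on the boundary of three-dimensional sections to ellipsoids.
-/

namespace Pool.Agent.Graze77

open Set Metric Topology Filter Module

set_option linter.unusedSectionVars false

abbrev E3 := EuclideanSpace ℝ (Fin 3)

/-- Quadratic polynomial functions. -/
def IsQuadPoly {V : Type*} [AddCommGroup V] [Module ℝ V] (f : V → ℝ) : Prop :=
  ∃ (Q : QuadraticForm ℝ V) (l : V →ₗ[ℝ] ℝ) (c : ℝ), ∀ v, f v = Q v + l v + c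

section
variable {V : Type*} [NormedAddCommGroup V] [NormedSpace ℝ V]

lemma quad_expand (Q : QuadraticForm ℝ V) (x v : V) (t : ℝ) :
    Q (x + t • v) = Q x + t * QuadraticMap.polar Q x v + t ^ 2 * Q v := by
  have h1 : QuadraticMap.polar Q x (t • v) = t * QuadraticMap.polar Q x v := by
    rw [QuadraticMap.polar_smul_right]; rfl
  have h2 : QuadraticMap.polar Q x (t • v) = Q (x + t • v) - Q x - Q (t • v) := rfl
  rw [QuadraticMap.map_smul] at h2
  simp only [smul_eq_mul] at h2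
  linear_combination h1 - h2

lemma IsQuadPoly.lineQuad {f : V → ℝ} (hf : IsQuadPoly f) : LineQuad f := by
  obtain ⟨Q, l, c, h⟩ := hf
  intro x v
  refine ⟨Q v, QuadraticMap.polar Q x v + l v, Q x + l x + c, fun t => ?_⟩
  rw [h, quad_expand, map_add, map_smul, smul_eq_mul]
  ring

/-- Normal form. -/
lemma normal_form {M : Set V} (hb : Bornology.IsBounded M) (hc : Convex ℝ M) {o : V}
    (ho : o ∈ interior M) {f : V → ℝ} (hf : IsQuadPoly f) (hf0 : ∃ x, f x ≠ 0)
    (hfM : ∀ y ∈ frontier M, f y = 0) :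
    ∃ (Q : QuadraticForm ℝ V) (l : V →ₗ[ℝ] ℝ), ∀ v,
      rho M o v - rho M o (-v) = l v ∧ rho M o v * rho M o (-v) = Q v := by
  obtain ⟨Q, l, c, h⟩ := hf
  -- shift to the origin
  set l' : V →ₗ[ℝ] ℝ := l + (QuadraticMap.polarBilin Q) o with hl'
  set c' : ℝ := f o with hc'
  have hsh : ∀ v, f (o + v) = Q v + l' v + c' := by
    intro v
    have h1 := quad_expand Q o v 1
    simp only [one_smul, one_pow, one_mul] at h1
    rw [hc', h, h, h1, hl', LinearMap.map_add]
    simp only [LinearMap.add_apply, QuadraticMap.polarBilin_apply_apply]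
    ring
  -- the equation on rays
  have hray : ∀ v, v ≠ 0 → Q v + l' v * rho M o v + c' * rho M o v ^ 2 = 0 := by
    intro v hv
    have hp := rho_pos hb ho hv
    have h1 := hfM _ (exit_mem hb hc ho hv)
    rw [hsh, QuadraticMap.map_smul, map_smul, smul_eq_mul, smul_eq_mul] at h1
    have h2 : rho M o v ^ 2 * ((rho M o v)⁻¹ * (rho M o v)⁻¹ * Q v + (rho M o v)⁻¹ * l' v + c') = 0 := by
      rw [h1, mul_zero]
    have h3 : rho M o v * (rho M o v)⁻¹ = 1 := mul_inv_cancel₀ hp.ne'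
    linear_combination h2 - Q v * (rho M o v * (rho M o v)⁻¹ + 1) * h3 - l' v * rho M o v * h3
  have hc'0 : c' ≠ 0 := by
    intro hc0
    have hz : ∀ v, Q v = 0 ∧ l' v = 0 := by
      intro v
      by_cases hv : v = 0
      · subst hv; simp
      · have h1 := hray v hv
        have h2 := hray (-v) (neg_ne_zero.2 hv)
        rw [QuadraticMap.map_neg, map_neg] at h2
        have hp := rho_pos hb ho hv
        have hp' := rho_pos hb ho (neg_ne_zero.2 hv)
        rw [hc0] at h1 h2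
        have h3 : l' v * (rho M o v + rho M o (-v)) = 0 := by linear_combination h1 - h2
        have h4 : l' v = 0 := (mul_eq_zero.1 h3).resolve_right (by positivity)
        rw [h4] at h1
        exact ⟨by linarith, h4⟩
    obtain ⟨x, hx⟩ := hf0
    apply hx
    have := hsh (x - o)
    rw [(hz _).1, (hz _).2, hc0] at this
    simpa using this
  refine ⟨(-c'⁻¹) • Q, (-c'⁻¹) • l', fun v => ?_⟩
  by_cases hv : v = 0
  · subst hv; simp [rho_zero]
  have h1 := hray v hv
  have h2 := hray (-v) (neg_ne_zero.2 hv)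
  rw [QuadraticMap.map_neg, map_neg] at h2
  have hp := rho_pos hb ho hv
  have hp' := rho_pos hb ho (neg_ne_zero.2 hv)
  set a := rho M o v
  set b := rho M o (-v)
  have hab : a + b ≠ 0 := by positivity
  have h3 : l' v + c' * (a - b) = 0 := by
    have : (a + b) * (l' v + c' * (a - b)) = 0 := by linear_combination h1 - h2
    exact (mul_eq_zero.1 this).resolve_left hab
  have h4 : Q v + c' * (a * b) = 0 := by linear_combination h1 - a * h3
  have h5 : c'⁻¹ * c' = 1 := inv_mul_cancel₀ hc'0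
  constructor
  · simp only [LinearMap.smul_apply, smul_eq_mul]
    linear_combination (-(a - b)) * h5 + c'⁻¹ * h3
  · simp only [smul_apply, smul_eq_mul]
    linear_combination (-(a * b)) * h5 + c'⁻¹ * h4

end

section assemble

variable {W : Type*} [AddCommGroup W] [Module ℝ W] [FiniteDimensional ℝ W]

lemma ext_family : ∀ (m s : ℕ) (v : Fin s → W), LinearIndependent ℝ v → s + m ≤ finrank ℝ W →
    ∃ w : Fin (s + m) → W, LinearIndependent ℝ w ∧ range v ⊆ range w
  | 0, s, v, hv, _ => ⟨v, hv, subset_rfl⟩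
  | m + 1, s, v, hv, h => by
    obtain ⟨w, hw, hvw⟩ := ext_family m s v hv (by omega)
    obtain ⟨x, hx⟩ := exists_linearIndependent_snoc_of_lt_finrank hw (by omega)
    refine ⟨Fin.snoc (α := fun _ => W) w x, hx, hvw.trans ?_⟩
    rintro _ ⟨i, rfl⟩
    exact ⟨Fin.castSucc i, by simp⟩

lemma exists_iota (hW : 3 ≤ finrank ℝ W) (x y z : W) :
    ∃ ι : E3 →ₗ[ℝ] W, Function.Injective ι ∧ x ∈ LinearMap.range ι ∧ y ∈ LinearMap.range ι ∧
      z ∈ LinearMap.range ι := by
  set S : Submodule ℝ W := Submodule.span ℝ (range ![x, y, z]) with hS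
  have hfin : finrank ℝ S ≤ 3 := by
    have := finrank_range_le_card (R := ℝ) ![x, y, z]
    simpa [Set.finrank] using this
  set b := Module.finBasis ℝ S with hb
  have hbli : LinearIndependent ℝ (fun i => (b i : W)) :=
    b.linearIndependent.map' S.subtype (Submodule.ker_subtype S)
  obtain ⟨m, hm⟩ := Nat.exists_eq_add_of_le hfin
  obtain ⟨w, hw, hvw⟩ := ext_family m _ _ hbli (by omega)
  have hSle : S ≤ Submodule.span ℝ (range w) := by
    have h3 : Submodule.map S.subtype (Submodule.span ℝ (range b)) = S := by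
      rw [b.span_eq]; simp
    rw [Submodule.map_span] at h3
    have h4 : (S.subtype '' range b) ⊆ range w := by
      rintro _ ⟨_, ⟨i, rfl⟩, rfl⟩
      exact hvw ⟨i, rfl⟩
    exact h3.symm.le.trans (Submodule.span_mono h4)
  set w' : Fin 3 → W := fun i => w (Fin.cast hm i) with hw'
  have hw'li : LinearIndependent ℝ w' := hw.comp _ (Fin.cast_injective hm)
  have hrange : range w' = range w := by
    ext u
    constructor
    · rintro ⟨i, rfl⟩; exact ⟨_, rfl⟩
    · rintro ⟨i, rfl⟩; exact ⟨Fin.cast hm.symm i, by simp [hw']⟩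
  refine ⟨(Fintype.linearCombination ℝ w').comp (WithLp.linearEquiv 2 ℝ (Fin 3 → ℝ)).toLinearMap,
    ?_, ?_⟩
  · rw [LinearMap.coe_comp]
    exact (linearIndependent_iff_injective_fintypeLinearCombination.1 hw'li).comp
      (LinearEquiv.injective _)
  · have hr : LinearMap.range ((Fintype.linearCombination ℝ w').comp
        (WithLp.linearEquiv 2 ℝ (Fin 3 → ℝ)).toLinearMap) = Submodule.span ℝ (range w) := by
      rw [LinearMap.range_comp_of_range_eq_top _ (LinearEquiv.range _), Fintype.range_linearCombination,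
        hrange]
    rw [hr]
    refine ⟨hSle (Submodule.subset_span ⟨0, rfl⟩), hSle (Submodule.subset_span ⟨1, rfl⟩),
      hSle (Submodule.subset_span ⟨2, rfl⟩)⟩

lemma assemble (hW : 3 ≤ finrank ℝ W) (ρ : W → ℝ)
    (h : ∀ ι : E3 →ₗ[ℝ] W, Function.Injective ι → ∃ (Q : QuadraticForm ℝ E3) (l : E3 →ₗ[ℝ] ℝ),
      ∀ v, ρ (ι v) - ρ (-(ι v)) = l v ∧ ρ (ι v) * ρ (-(ι v)) = Q v) :
    ∃ (Q : QuadraticForm ℝ W) (l : W →ₗ[ℝ] ℝ), ∀ v,
      ρ v - ρ (-v) = l v ∧ ρ v * ρ (-v) = Q v := by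
  have hl1 : ∀ x y, (ρ (x + y) - ρ (-(x + y))) = (ρ x - ρ (-x)) + (ρ y - ρ (-y)) := by
    intro x y
    obtain ⟨ι, hι, ⟨a, rfl⟩, ⟨b, rfl⟩, -⟩ := exists_iota hW x y 0
    obtain ⟨Q, l, hQ⟩ := h ι hι
    rw [← map_add, (hQ _).1, (hQ _).1, (hQ _).1, map_add]
  have hl2 : ∀ (t : ℝ) x, (ρ (t • x) - ρ (-(t • x))) = t * (ρ x - ρ (-x)) := by
    intro t x
    obtain ⟨ι, hι, ⟨a, rfl⟩, -, -⟩ := exists_iota hW x 0 0
    obtain ⟨Q, l, hQ⟩ := h ι hι
    rw [← map_smul, (hQ _).1, (hQ _).1, map_smul, smul_eq_mul]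
  let l : W →ₗ[ℝ] ℝ :=
    { toFun := fun v => ρ v - ρ (-v)
      map_add' := hl1
      map_smul' := fun t x => by simpa using hl2 t x }
  let Q : QuadraticForm ℝ W := QuadraticMap.ofPolar (fun v => ρ v * ρ (-v))
    (by
      intro t x
      obtain ⟨ι, hι, ⟨a, rfl⟩, -, -⟩ := exists_iota hW x 0 0
      obtain ⟨Q, l, hQ⟩ := h ι hι
      rw [← map_smul, (hQ _).2, (hQ _).2, QuadraticMap.map_smul])
    (by
      intro x x' y
      obtain ⟨ι, hι, ⟨a, rfl⟩, ⟨b, rfl⟩, ⟨c, rfl⟩⟩ := exists_iota hW x x' y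
      obtain ⟨Q, l, hQ⟩ := h ι hι
      have h1 := QuadraticMap.polar_add_left Q a b c
      simp only [QuadraticMap.polar] at h1 ⊢
      simp only [← map_add]
      simp only [(hQ _).2]
      exact h1)
    (by
      intro t x y
      obtain ⟨ι, hι, ⟨a, rfl⟩, ⟨b, rfl⟩, -⟩ := exists_iota hW x y 0
      obtain ⟨Q, l, hQ⟩ := h ι hι
      have h1 := QuadraticMap.polar_smul_left Q t a b
      simp only [QuadraticMap.polar] at h1 ⊢
      simp only [← map_add, ← map_smul]
      simp only [(hQ _).2]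
      exact h1)
  exact ⟨Q, l, fun v => ⟨rfl, rfl⟩⟩

end assemble

section ellipsoid

variable {n : ℕ}


/-- a positive definite form is the square of a norm -/
lemma exists_norm_sq {W : Type*} [AddCommGroup W] [Module ℝ W] [FiniteDimensional ℝ W]
    (hn : finrank ℝ W = n) (Q : QuadraticForm ℝ W) (hQ : ∀ v, v ≠ 0 → 0 < Q v) :
    ∃ T : W ≃ₗ[ℝ] EuclideanSpace ℝ (Fin n), ∀ v, Q v = ‖T v‖ ^ 2 := by
  subst hn
  obtain ⟨w, hw, ⟨e⟩⟩ := QuadraticForm.equivalent_one_zero_neg_one_weighted_sum_squared Q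
  have hw1 : ∀ i, w i = 1 := by
    intro i
    have h1 := e.map_app (e.symm (Pi.single i 1))
    have h2 : e (e.symm (Pi.single i 1)) = Pi.single i 1 := e.toLinearEquiv.apply_symm_apply _
    rw [h2] at h1
    have h3 : e.symm (Pi.single i (1:ℝ)) ≠ 0 := by
      intro h
      have h4 : e (e.symm (Pi.single i (1:ℝ))) = e 0 := by rw [h]
      rw [h2, map_zero] at h4
      have := congrFun h4 i
      simp at this
    have h5 := hQ _ h3
    rw [← h1, QuadraticMap.weightedSumSquares_apply] at h5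
    rw [Finset.sum_eq_single i (by intro j _ hj; simp [hj]) (by simp)] at h5
    simp at h5
    rcases hw i with h | h | h
    · rw [h] at h5; norm_num at h5
    · rw [h] at h5; norm_num at h5
    · exact h
  refine ⟨e.toLinearEquiv.trans (WithLp.linearEquiv 2 ℝ _).symm, fun v => ?_⟩
  rw [← e.map_app v, QuadraticMap.weightedSumSquares_apply, EuclideanSpace.norm_sq_eq]
  apply Finset.sum_congr rfl
  intro i _
  rw [hw1 i]
  simp [sq]

theorem ellipsoid_of_forms {M : Set (EuclideanSpace ℝ (Fin n))} (hM : IsCompact M)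
    (hc : Convex ℝ M) {o : EuclideanSpace ℝ (Fin n)} (ho : o ∈ interior M)
    (Q : QuadraticForm ℝ (EuclideanSpace ℝ (Fin n)))
    (l : EuclideanSpace ℝ (Fin n) →ₗ[ℝ] ℝ)
    (h : ∀ v, rho M o v - rho M o (-v) = l v ∧ rho M o v * rho M o (-v) = Q v) :
    ∃ A : EuclideanSpace ℝ (Fin n) ≃ᵃ[ℝ] EuclideanSpace ℝ (Fin n),
      M = A '' closedBall 0 1 := by
  have hb := hM.isBounded
  have hQ : ∀ v, v ≠ 0 → 0 < Q v := by
    intro v hv
    rw [← (h v).2]
    exact mul_pos (rho_pos hb ho hv) (rho_pos hb ho (neg_ne_zero.2 hv))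
  obtain ⟨T, hT⟩ := exists_norm_sq (n := n) (by simp) Q hQ
  -- represent l
  set lc : EuclideanSpace ℝ (Fin n) →L[ℝ] ℝ := LinearMap.toContinuousLinearMap
    (l ∘ₗ T.symm.toLinearMap) with hlc
  set a := (InnerProductSpace.toDual ℝ (EuclideanSpace ℝ (Fin n))).symm lc with ha
  have ha1 : ∀ w, inner ℝ a w = l (T.symm w) := by
    intro w
    rw [ha, InnerProductSpace.toDual_symm_apply, hlc]
    simp
  set R : ℝ := Real.sqrt (1 + ‖a‖ ^ 2 / 4) with hR
  have hRpos : 0 < R := Real.sqrt_pos.2 (by positivity)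
  have hRsq : R ^ 2 = 1 + ‖a‖ ^ 2 / 4 := Real.sq_sqrt (by positivity)
  have hmem : ∀ v, o + v ∈ M ↔ ‖T v + (1/2 : ℝ) • a‖ ≤ R := by
    intro v
    rw [← rho_le_one_iff hM.isClosed hc ho]
    have h1 : ‖T v + (1/2 : ℝ) • a‖ ^ 2 = ‖T v‖ ^ 2 + l v + ‖a‖ ^ 2 / 4 := by
      rw [norm_add_sq_real, inner_smul_right, real_inner_comm, ha1, T.symm_apply_apply, norm_smul]
      norm_num
      ring
    have h2 : ‖T v + (1/2 : ℝ) • a‖ ≤ R ↔ ‖T v + (1/2 : ℝ) • a‖ ^ 2 ≤ R ^ 2 := by
      rw [sq_le_sq₀ (norm_nonneg _) hRpos.le]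
    rw [h2, h1, hRsq, ← hT, ← (h v).1, ← (h v).2]
    have hp' : 0 ≤ rho M o (-v) := rho_nonneg _
    constructor
    · intro h3
      nlinarith
    · intro h3
      by_contra h4
      push Not at h4
      nlinarith
  -- the affine equivalence
  let A : EuclideanSpace ℝ (Fin n) ≃ᵃ[ℝ] EuclideanSpace ℝ (Fin n) :=
    ((LinearEquiv.smulOfNeZero ℝ (EuclideanSpace ℝ (Fin n)) R hRpos.ne').toAffineEquiv.trans
      (AffineEquiv.constVAdd ℝ (EuclideanSpace ℝ (Fin n)) (-((1/2 : ℝ) • a)))).trans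
      (T.symm.toAffineEquiv.trans (AffineEquiv.constVAdd ℝ (EuclideanSpace ℝ (Fin n)) o))
  have hA : ∀ u, A u = o + T.symm (-((1/2 : ℝ) • a) + R • u) := by
    intro u; rfl
  refine ⟨A, ?_⟩
  ext y
  constructor
  · intro hy
    have h3 : ‖T (y - o) + (1/2 : ℝ) • a‖ ≤ R := (hmem _).1 (by simpa using hy)
    refine ⟨R⁻¹ • (T (y - o) + (1/2 : ℝ) • a), ?_, ?_⟩
    · rw [mem_closedBall_zero_iff, norm_smul, norm_inv, Real.norm_eq_abs, abs_of_pos hRpos]
      rw [inv_mul_le_iff₀ hRpos]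
      simpa using h3
    · rw [hA, smul_smul, mul_inv_cancel₀ hRpos.ne', one_smul]
      simp
  · rintro ⟨u, hu, rfl⟩
    rw [hA, hmem, T.apply_symm_apply]
    rw [mem_closedBall_zero_iff] at hu
    have : -((1/2 : ℝ) • a) + R • u + (1/2 : ℝ) • a = R • u := by abel
    rw [this, norm_smul, Real.norm_eq_abs, abs_of_pos hRpos]
    nlinarith

end ellipsoid

end Pool.Agent.Graze77
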