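import Pool.Agent.Graze77.Bridge

/-!
# Flat grazes from a surrounding convex surface (MP_7f706e_gt)

Let `n ≥ 3` and let `M, K` be convex bodies in `ℝⁿ` with `M ⊆ int K`. If the graze of `M` from
every boundary point of `K` is flat, then `M` is an ellipsoid.
-/

namespace Pool.Agent.Graze77.FinalDraft

open Set Metric Topology Filter

/-- A convex body of `ℝⁿ`: a compact convex set with nonempty interior. -/
def IsConvexBody {n : ℕ} (M : Set (EuclideanSpace ℝ (Fin n))) : Prop :=
  IsCompact M ∧ Convex ℝ M ∧ (interior M).Nonempty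

/-- `L` is a support line to `M` through `x`: a line through `x` which meets `M` but not the
interior of `M`. -/
def IsSupportLine {n : ℕ} (M : Set (EuclideanSpace ℝ (Fin n))) (x : EuclideanSpace ℝ (Fin n))
    (L : AffineSubspace ℝ (EuclideanSpace ℝ (Fin n))) : Prop :=
  Module.finrank ℝ L.direction = 1 ∧ x ∈ L ∧
    ((L : Set (EuclideanSpace ℝ (Fin n))) ∩ M).Nonempty ∧
    (L : Set (EuclideanSpace ℝ (Fin n))) ∩ interior M = ∅

/-- The graze `Σ(M, x)`: all points of `M` on the support lines to `M` through `x`. -/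
def graze {n : ℕ} (M : Set (EuclideanSpace ℝ (Fin n))) (x : EuclideanSpace ℝ (Fin n)) :
    Set (EuclideanSpace ℝ (Fin n)) :=
  {y | ∃ L : AffineSubspace ℝ (EuclideanSpace ℝ (Fin n)), IsSupportLine M x L ∧
    y ∈ (L : Set (EuclideanSpace ℝ (Fin n))) ∩ M}

/-- A set is flat if it is contained in an affine hyperplane
(a nonempty affine subspace of dimension `n - 1`). -/
def IsFlat {n : ℕ} (S : Set (EuclideanSpace ℝ (Fin n))) : Prop :=
  ∃ H : AffineSubspace ℝ (EuclideanSpace ℝ (Fin n)),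
    (H : Set (EuclideanSpace ℝ (Fin n))).Nonempty ∧
    Module.finrank ℝ H.direction + 1 = n ∧ S ⊆ (H : Set (EuclideanSpace ℝ (Fin n)))

/-- An ellipsoid: the image of the closed unit ball under an invertible affine map. -/
def IsEllipsoid {n : ℕ} (M : Set (EuclideanSpace ℝ (Fin n))) : Prop :=
  ∃ A : EuclideanSpace ℝ (Fin n) ≃ᵃ[ℝ] EuclideanSpace ℝ (Fin n), M = A '' closedBall 0 1

lemma exists_normal {n : ℕ} {S : Set (EuclideanSpace ℝ (Fin n))} (h : IsFlat S) :
    Pool.Agent.Graze77.IsFlat S := by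
  obtain ⟨H, ⟨p, hp⟩, hH, hS⟩ := h
  have h1 : Module.finrank ℝ H.directionᗮ = 1 := by
    have h2 := H.direction.finrank_add_finrank_orthogonal
    rw [finrank_euclideanSpace_fin] at h2
    omega
  have h3 : H.directionᗮ ≠ ⊥ := by
    intro h
    rw [h, finrank_bot] at h1
    exact zero_ne_one h1
  obtain ⟨a, ha, ha0⟩ := Submodule.exists_mem_ne_zero_of_ne_bot h3
  refine ⟨a, inner ℝ a p, ha0, fun y hy => ?_⟩
  have h4 : y - p ∈ H.direction := AffineSubspace.vsub_mem_direction (hS hy) hp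
  have h5 := (Submodule.mem_orthogonal' _ _).1 ha _ h4
  rw [inner_sub_right] at h5
  linarith

lemma mem_graze {n : ℕ} {M : Set (EuclideanSpace ℝ (Fin n))} {x y : EuclideanSpace ℝ (Fin n)}
    (hx : x ∉ M) (hy : y ∈ Graze M x) : y ∈ graze M x := by
  have hxy : x ≠ y := fun h => hx (h ▸ hy.1)
  have hyL : y ∈ line[ℝ, x, y] := right_mem_affineSpan_pair ℝ x y
  refine ⟨line[ℝ, x, y], ⟨?_, left_mem_affineSpan_pair ℝ x y, ⟨y, hyL, hy.1⟩, ?_⟩, hyL, hy.1⟩
  · rw [direction_affineSpan, vectorSpan_pair]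
    exact finrank_span_singleton (by simpa [sub_eq_zero] using hxy)
  · rw [Set.eq_empty_iff_forall_notMem]
    rintro z ⟨hz, hzM⟩
    rw [SetLike.mem_coe, mem_affineSpan_pair_iff_exists_lineMap_eq] at hz
    obtain ⟨t, rfl⟩ := hz
    apply hy.2 t
    rw [AffineMap.lineMap_apply] at hzM
    simpa [add_comm] using hzM

theorem final (h3 : Local3) {n : ℕ} (hn : 3 ≤ n) {M K : Set (EuclideanSpace ℝ (Fin n))}
    (hM : IsConvexBody M) (hK : IsConvexBody K) (hMK : M ⊆ interior K)
    (hflat : ∀ x ∈ frontier K, IsFlat (graze M x)) : IsEllipsoid M := by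
  refine main_of_core (core3_of_local3 h3) hn M K hM.1 hM.2.1 hM.2.2 hK.1 hK.2.1 hMK ?_
  intro x hx
  have hxM : x ∉ M := fun h => hx.2 (hMK h)
  obtain ⟨a, c, ha, hac⟩ := exists_normal (hflat x hx)
  exact ⟨a, c, ha, fun y hy => hac y (mem_graze hxM hy)⟩

end Pool.Agent.Graze77.FinalDraft
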