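import Pool.Agent.Graze77.Body

/-!
Local quadrics along the boundary of a strictly convex body glue to a global one.
-/

namespace Pool.Agent.Graze77

open Set Metric Topology Filter

set_option linter.unusedSectionVars false

variable {V : Type*} [NormedAddCommGroup V] [NormedSpace ℝ V]

/-- functions that are polynomials of degree at most two on each line -/
def LineQuad (f : V → ℝ) : Prop :=
  ∀ x v : V, ∃ a b c : ℝ, ∀ t : ℝ, f (x + t • v) = a * t ^ 2 + b * t + c

lemma LineQuad.comb {f g : V → ℝ} (hf : LineQuad f) (hg : LineQuad g) (r s : ℝ) :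
    LineQuad (fun x => r * f x + s * g x) := by
  intro x v
  obtain ⟨a, b, c, h⟩ := hf x v
  obtain ⟨a', b', c', h'⟩ := hg x v
  refine ⟨r * a + s * a', r * b + s * b', r * c + s * c', fun t => ?_⟩
  simp only [h, h']
  ring

lemma zero3 {a b c t1 t2 t3 : ℝ} (h12 : t1 ≠ t2) (h13 : t1 ≠ t3) (h23 : t2 ≠ t3)
    (h1 : a * t1 ^ 2 + b * t1 + c = 0) (h2 : a * t2 ^ 2 + b * t2 + c = 0)
    (h3 : a * t3 ^ 2 + b * t3 + c = 0) : a = 0 ∧ b = 0 ∧ c = 0 := by
  have e1 : a * (t1 + t2) + b = 0 := by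
    apply mul_left_cancel₀ (sub_ne_zero.2 h12)
    linear_combination h1 - h2
  have e2 : a * (t1 + t3) + b = 0 := by
    apply mul_left_cancel₀ (sub_ne_zero.2 h13)
    linear_combination h1 - h3
  have ha : a = 0 := by
    apply mul_left_cancel₀ (sub_ne_zero.2 h23)
    linear_combination e1 - e2
  subst ha
  have hb : b = 0 := by linarith
  subst hb
  exact ⟨rfl, rfl, by linarith⟩

lemma LineQuad.zero_line {f : V → ℝ} (hf : LineQuad f) {x v : V} {t1 t2 t3 : ℝ}
    (h12 : t1 ≠ t2) (h13 : t1 ≠ t3) (h23 : t2 ≠ t3)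
    (h1 : f (x + t1 • v) = 0) (h2 : f (x + t2 • v) = 0) (h3 : f (x + t3 • v) = 0) (t : ℝ) :
    f (x + t • v) = 0 := by
  obtain ⟨a, b, c, h⟩ := hf x v
  rw [h] at h1 h2 h3
  obtain ⟨rfl, rfl, rfl⟩ := zero3 h12 h13 h23 h1 h2 h3
  rw [h]; simp

lemma LineQuad.eq_zero_of_eventually {f : V → ℝ} (hf : LineQuad f) {z : V}
    (hz : ∀ᶠ y in 𝓝 z, f y = 0) (w : V) : f w = 0 := by
  have hcont : Tendsto (fun t : ℝ => z + t • (w - z)) (𝓝 0) (𝓝 z) := by
    have : Continuous (fun t : ℝ => z + t • (w - z)) := by fun_prop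
    have h := this.tendsto 0
    simpa using h
  have h1 := hcont.eventually hz
  obtain ⟨ε, hε, h2⟩ := Metric.eventually_nhds_iff.1 h1
  have h3 : ∀ s : ℝ, |s| < ε → f (z + s • (w - z)) = 0 := fun s hs => h2 (by simpa using hs)
  have h4 := hf.zero_line (x := z) (v := w - z) (t1 := 0) (t2 := ε / 2) (t3 := ε / 3)
    (by linarith [hε] : (0:ℝ) < ε / 2).ne (by linarith [hε] : (0:ℝ) < ε / 3).ne
    (by intro h; linarith) (h3 _ (by simpa using hε))
    (h3 _ (by rw [abs_of_pos (by linarith)]; linarith))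
    (h3 _ (by rw [abs_of_pos (by linarith)]; linarith)) 1
  simpa using h4

/-- Uniqueness: a line-quadratic function vanishing on the part of the boundary near two opposite
points and at their midpoint vanishes. -/
lemma uniq {M : Set V} (hb : Bornology.IsBounded M) (hc : Convex ℝ M) {o d : V}
    (ho : o ∈ interior M) (h1 : o + d ∈ frontier M) (h2 : o - d ∈ frontier M)
    {U : Set V} (hU : IsOpen U) (hU1 : o + d ∈ U) (hU2 : o - d ∈ U) {f : V → ℝ}
    (hf : LineQuad f) (hf0 : f o = 0) (hfU : ∀ y ∈ frontier M, y ∈ U → f y = 0) (w : V) :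
    f w = 0 := by
  have hρ1 : rho M o d = 1 := (rho_eq_one_iff hc ho).2 h1
  have hρ2 : rho M o (-d) = 1 := (rho_eq_one_iff hc ho).2 (by rwa [← sub_eq_add_neg])
  have hcr := rho_cont (M := M) hc ho
  have hd : d ≠ 0 := by
    rintro rfl
    rw [rho_zero] at hρ1
    exact zero_ne_one hρ1
  have c1 : ContinuousAt (fun e : V => o + (rho M o e)⁻¹ • e) d := by
    have : rho M o d ≠ 0 := by rw [hρ1]; exact one_ne_zero
    fun_prop (disch := assumption)
  have c2 : ContinuousAt (fun e : V => o - (rho M o (-e))⁻¹ • e) d := by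
    have : rho M o (-d) ≠ 0 := by rw [hρ2]; exact one_ne_zero
    fun_prop (disch := assumption)
  have e1 : ∀ᶠ e in 𝓝 d, o + (rho M o e)⁻¹ • e ∈ U := by
    apply c1.eventually_mem
    apply hU.mem_nhds
    simpa [hρ1] using hU1
  have e2 : ∀ᶠ e in 𝓝 d, o - (rho M o (-e))⁻¹ • e ∈ U := by
    apply c2.eventually_mem
    apply hU.mem_nhds
    simpa [hρ2] using hU2
  have e3 : ∀ᶠ e in 𝓝 d, e ≠ 0 := isOpen_ne.mem_nhds hd
  have key : ∀ᶠ e in 𝓝 d, f (o + e) = 0 := by
    filter_upwards [e1, e2, e3] with e he1 he2 he3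
    have hp := rho_pos hb ho he3
    have hp' := rho_pos hb ho (neg_ne_zero.2 he3)
    have z1 : f (o + (rho M o e)⁻¹ • e) = 0 := hfU _ (exit_mem hb hc ho he3) he1
    have z2 : f (o + (-(rho M o (-e))⁻¹) • e) = 0 := by
      have h3 := exit_mem hb hc ho (neg_ne_zero.2 he3)
      have h4 : o + (rho M o (-e))⁻¹ • (-e) = o - (rho M o (-e))⁻¹ • e := by
        rw [smul_neg, sub_eq_add_neg]
      rw [h4] at h3
      have h5 := hfU _ h3 he2
      rwa [neg_smul, ← sub_eq_add_neg]
    have z3 : f (o + (0 : ℝ) • e) = 0 := by simpa using hf0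
    have i1 := inv_pos.2 hp
    have i2 := inv_pos.2 hp'
    have := hf.zero_line (t1 := (rho M o e)⁻¹) (t2 := -(rho M o (-e))⁻¹) (t3 := 0)
      (by linarith : -(rho M o (-e))⁻¹ < (rho M o e)⁻¹).ne' i1.ne' (by linarith : -(rho M o (-e))⁻¹ < 0).ne z1 z2 z3 1
    simpa using this
  have key2 : ∀ᶠ y in 𝓝 (o + d), f y = 0 := by
    have : Tendsto (fun y : V => y - o) (𝓝 (o + d)) (𝓝 d) := by
      have : Continuous (fun y : V => y - o) := by fun_prop
      have h := this.tendsto (o + d)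
      simpa using h
    filter_upwards [this.eventually key] with y hy
    simpa using hy
  exact hf.eq_zero_of_eventually key2 w

/-- the frontier of a convex body is connected -/
lemma frontier_preconnected {M : Set V} (hb : Bornology.IsBounded M) (hc : Convex ℝ M)
    {o : V} (ho : o ∈ interior M) (hV : 1 < Module.rank ℝ V) : IsPreconnected (frontier M) := by
  have h1 := isPreconnected_sphere hV (0 : V) 1
  have h2 : ContinuousOn (fun e : V => o + (rho M o e)⁻¹ • e) (sphere (0:V) 1) := by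
    have hcr := rho_cont (M := M) hc ho
    intro e he
    have he0 : e ≠ 0 := by
      rintro rfl
      simp at he
    have : rho M o e ≠ 0 := (rho_pos hb ho he0).ne'
    have c1 : ContinuousAt (fun e : V => o + (rho M o e)⁻¹ • e) e := by
      fun_prop (disch := assumption)
    exact c1.continuousWithinAt
  have h3 := h1.image _ h2
  convert h3 using 1
  ext y
  constructor
  · intro hy
    have h4 : rho M o (y - o) = 1 := (rho_eq_one_iff hc ho).2 (by simpa using hy)
    have h5 : y - o ≠ 0 := by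
      intro h
      rw [h, rho_zero] at h4
      exact zero_ne_one h4
    have h6 : 0 < ‖y - o‖ := norm_pos_iff.2 h5
    refine ⟨‖y - o‖⁻¹ • (y - o), ?_, ?_⟩
    · simp [norm_smul, h6.ne']
    · simp only
      rw [rho_smul (inv_nonneg.2 h6.le), h4, mul_one, inv_inv, smul_smul,
        mul_inv_cancel₀ h6.ne', one_smul]
      abel
  · rintro ⟨e, he, rfl⟩
    have he0 : e ≠ 0 := by
      rintro rfl
      simp at he
    exact exit_mem hb hc ho he0

/-- a point of the frontier is not isolated -/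
lemma exists_near {M : Set V} (hb : Bornology.IsBounded M) (hc : Convex ℝ M)
    {o : V} (ho : o ∈ interior M) (hV : 1 < Module.rank ℝ V) {p : V} (hp : p ∈ frontier M)
    {U : Set V} (hU : U ∈ 𝓝 p) : ∃ y ∈ frontier M, y ∈ U ∧ y ≠ p := by
  by_contra hcon
  push Not at hcon
  -- choose a direction not parallel to p - o
  have hρ : rho M o (p - o) = 1 := (rho_eq_one_iff hc ho).2 (by simpa using hp)
  have hpo : p - o ≠ 0 := by
    intro h
    rw [h, rho_zero] at hρ
    exact zero_ne_one hρ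
  obtain ⟨w, hw⟩ : ∃ w : V, w ∉ Submodule.span ℝ {p - o} := by
    by_contra hcon2
    push Not at hcon2
    have htop : Submodule.span ℝ {p - o} = ⊤ := by
      rw [eq_top_iff]
      intro w _
      exact hcon2 w
    have h1 : Module.rank ℝ V ≤ 1 := by
      rw [← rank_top, ← htop]
      exact rank_span_le _ |>.trans (by simp)
    exact absurd hV (not_lt.2 h1)
  have hcr := rho_cont (M := M) hc ho
  have c1 : ContinuousAt (fun s : ℝ => o + (rho M o (p - o + s • w))⁻¹ • (p - o + s • w)) 0 := by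
    have : rho M o (p - o + (0:ℝ) • w) ≠ 0 := by
      rw [zero_smul, add_zero, hρ]; exact one_ne_zero
    fun_prop (disch := assumption)
  have e1 : ∀ᶠ s : ℝ in 𝓝 0, o + (rho M o (p - o + s • w))⁻¹ • (p - o + s • w) ∈ U := by
    apply c1.eventually_mem
    simpa [hρ] using hU
  obtain ⟨ε, hε, h2⟩ := Metric.eventually_nhds_iff.1 e1
  have h3 := h2 (y := ε / 2) (by
    rw [Real.dist_eq, sub_zero, abs_of_pos (by linarith)]; linarith)
  have hne : p - o + (ε / 2) • w ≠ 0 := by
    intro h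
    apply hw
    rw [Submodule.mem_span_singleton]
    refine ⟨-(ε / 2)⁻¹, ?_⟩
    have h4 : p - o = -((ε / 2) • w) := eq_neg_of_add_eq_zero_left h
    rw [h4, smul_neg, neg_smul, neg_neg, smul_smul, inv_mul_cancel₀ (by linarith : ε / 2 ≠ 0),
      one_smul]
  have h4 := exit_mem hb hc ho hne
  have h5 := hcon _ h4 h3
  apply hw
  rw [Submodule.mem_span_singleton]
  set r := (rho M o (p - o + (ε / 2) • w))⁻¹ with hr
  have hrpos : 0 < r := inv_pos.2 (rho_pos hb ho hne)
  -- r (p - o) + r (ε/2) w = p - o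
  have h6 : r • (p - o + (ε / 2) • w) = p - o := eq_sub_of_add_eq' h5
  refine ⟨(r * (ε / 2))⁻¹ * (1 - r), ?_⟩
  have hrε : r * (ε / 2) ≠ 0 := mul_ne_zero hrpos.ne' (by linarith)
  have h7 : (r * (ε / 2)) • w = (1 - r) • (p - o) := by
    rw [smul_add, smul_smul] at h6
    rw [sub_smul, one_smul]
    exact eq_sub_of_add_eq' h6
  rw [mul_smul, ← h7, smul_smul, inv_mul_cancel₀ hrε, one_smul]

theorem exists_global (M : Set V) (hMc : IsCompact M) (hs : StrictConvex ℝ M)
    (hMi : (interior M).Nonempty) (hV : 1 < Module.rank ℝ V) (P : (V → ℝ) → Prop)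
    (hP : ∀ f, P f → LineQuad f)
    (hloc : ∀ p ∈ frontier M, ∃ U ∈ 𝓝 p, ∃ f : V → ℝ, P f ∧ (∃ x, f x ≠ 0) ∧
      ∀ y ∈ frontier M, y ∈ U → f y = 0) :
    ∃ f : V → ℝ, P f ∧ (∃ x, f x ≠ 0) ∧ ∀ y ∈ frontier M, f y = 0 := by
  obtain ⟨o, ho⟩ := hMi
  have hb := hMc.isBounded
  have hc := hs.convex
  have hpre := frontier_preconnected hb hc ho hV
  -- the frontier is nonempty
  obtain ⟨v0, hv0⟩ : ∃ v : V, v ≠ 0 := by
    have : Nontrivial V := by
      rw [← rank_pos_iff_nontrivial (R := ℝ)]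
      exact lt_trans zero_lt_one hV
    exact exists_ne 0
  have hp0 := exit_mem hb hc ho hv0
  set p0 := o + (rho M o v0)⁻¹ • v0
  obtain ⟨U0, hU0, f0, hPf0, hf0ne, hf0⟩ := hloc p0 hp0
  refine ⟨f0, hPf0, hf0ne, ?_⟩
  set W : Set V := {z | ∀ᶠ y in 𝓝 z, y ∈ frontier M → f0 y = 0} with hW
  have hWo : IsOpen W := by
    rw [isOpen_iff_mem_nhds]
    intro z hz
    exact eventually_eventually_nhds.2 hz
  -- the key uniqueness: at a frontier point `p'` where both vanish, they are proportional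
  have key : ∀ p ∈ frontier M, p ∉ W → ∃ U' : Set V, IsOpen U' ∧ p ∈ U' ∧
      ∀ p' ∈ frontier M, p' ∈ U' → p' ∉ W := by
    intro p hpM hpW
    obtain ⟨U, hU, f, hPf, hfne, hf⟩ := hloc p hpM
    obtain ⟨U', hU'U, hU'o, hpU'⟩ := _root_.mem_nhds_iff.1 hU
    refine ⟨U', hU'o, hpU', ?_⟩
    intro p' hp'M hp'U' hp'W
    apply hpW
    -- open set around p' where f0 vanishes too
    obtain ⟨N, hNW, hNo, hp'N⟩ := _root_.mem_nhds_iff.1 hp'W
    have hUN : IsOpen (U' ∩ N) := hU'o.inter hNo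
    -- a ball around p' inside U' ∩ N
    obtain ⟨r, hr, hball⟩ := Metric.isOpen_iff.1 hUN p' ⟨hp'U', hp'N⟩
    obtain ⟨y, hyM, hyball, hyp'⟩ := exists_near hb hc ho hV hp'M (ball_mem_nhds p' hr)
    -- midpoint
    set o' : V := (1/2 : ℝ) • (p' + y) with ho'
    set d : V := (1/2 : ℝ) • (p' - y) with hd
    have hod : o' + d = p' := by
      rw [ho', hd, ← smul_add]
      have : p' + y + (p' - y) = (2:ℝ) • p' := by rw [two_smul]; abel
      rw [this, smul_smul]; norm_num
    have hod' : o' - d = y := by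
      rw [ho', hd, ← smul_sub]
      have : p' + y - (p' - y) = (2:ℝ) • y := by rw [two_smul]; abel
      rw [this, smul_smul]; norm_num
    have ho'int : o' ∈ interior M := by
      have h1 := hs (hMc.isClosed.frontier_subset hp'M) (hMc.isClosed.frontier_subset hyM)
        hyp'.symm (a := 1/2) (b := 1/2) (by norm_num) (by norm_num) (by norm_num)
      rwa [← smul_add] at h1
    have hp'b : o' + d ∈ ball p' r := by rw [hod]; exact mem_ball_self hr
    have hyb : o' - d ∈ ball p' r := by rw [hod']; exact hyball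
    have U1 := fun (g : V → ℝ) (hg : LineQuad g) (hg0 : g o' = 0)
        (hgU : ∀ y ∈ frontier M, y ∈ ball p' r → g y = 0) (w : V) =>
      uniq hb hc ho'int (d := d) (by rwa [hod]) (by rwa [hod']) isOpen_ball hp'b hyb hg hg0 hgU w
    have v1 : ∀ y ∈ frontier M, y ∈ ball p' r → f0 y = 0 := fun y hy hyb => hNW (hball hyb).2 hy
    have v2 : ∀ y ∈ frontier M, y ∈ ball p' r → f y = 0 := fun y hy hyb =>
      hf y hy (hU'U (hball hyb).1)
    have n1 : f0 o' ≠ 0 := by
      intro h
      obtain ⟨x, hx⟩ := hf0ne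
      exact hx (U1 f0 (hP _ hPf0) h v1 x)
    have n2 : f o' ≠ 0 := by
      intro h
      obtain ⟨x, hx⟩ := hfne
      exact hx (U1 f (hP _ hPf) h v2 x)
    have h3 : ∀ w, f0 o' * f w + (-(f o')) * f0 w = 0 := by
      intro w
      refine U1 (fun w => f0 o' * f w + (-(f o')) * f0 w) ((hP _ hPf).comb (hP _ hPf0) _ _)
        (by ring) ?_ w
      intro y hy hyb
      simp [v1 y hy hyb, v2 y hy hyb]
    show ∀ᶠ y in 𝓝 p, y ∈ frontier M → f0 y = 0
    filter_upwards [hU] with y hy hyM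
    have h4 := h3 y
    rw [hf y hyM hy] at h4
    have h5 : f o' * f0 y = 0 := by linarith
    exact (mul_eq_zero.1 h5).resolve_left n2
  have hsub : frontier M ⊆ W := by
    by_contra hcon
    rw [Set.not_subset] at hcon
    obtain ⟨p, hpM, hpW⟩ := hcon
    set W' : Set V := ⋃₀ {U' | IsOpen U' ∧ ∀ p' ∈ frontier M, p' ∈ U' → p' ∉ W} with hW'
    have hW'o : IsOpen W' := isOpen_sUnion fun U' h => h.1
    have h1 := hpre W W' hWo hW'o (by
      intro z hz
      by_cases hzW : z ∈ W
      · exact Or.inl hzW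
      · right
        obtain ⟨U', a, b, c⟩ := key z hz hzW
        exact ⟨U', ⟨a, c⟩, b⟩) ⟨p0, hp0, by
          filter_upwards [hU0] with y hy hyM
          exact hf0 y hyM hy⟩ (by
          obtain ⟨U', a, b, c⟩ := key p hpM hpW
          exact ⟨p, hpM, U', ⟨a, c⟩, b⟩)
    obtain ⟨z, hzM, hzW, U', ⟨_, hU'⟩, hzU'⟩ := h1
    exact hU' z hzM hzU' hzW
  intro y hy
  exact (hsub hy).self_of_nhds hy

end Pool.Agent.Graze77
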