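import Pool.Agent.Graze77.Setup
import Pool.Agent.Graze77.Ellipsoid

/-!
Reduction of the flat graze theorem to dimension three and to a local statement.
-/

namespace Pool.Agent.Graze77

open Set Metric Topology Filter

set_option linter.unusedSectionVars false

section pull

variable {V W : Type*} [NormedAddCommGroup V] [NormedSpace ℝ V]
  [NormedAddCommGroup W] [NormedSpace ℝ W] [FiniteDimensional ℝ V]

/-- pull back of a set along `v ↦ o + ι v` -/
def pull (ι : V →ₗ[ℝ] W) (o : W) (M : Set W) : Set V := (fun v => o + ι v) ⁻¹' M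

variable {ι : V →ₗ[ℝ] W} {o : W} {M : Set W}

lemma pull_cont : Continuous (fun v => o + ι v) := by
  have := ι.continuous_of_finiteDimensional
  fun_prop

lemma pull_compact (hι : Function.Injective ι) (hM : IsCompact M) : IsCompact (pull ι o M) := by
  have h1 : IsClosedEmbedding ι := LinearMap.isClosedEmbedding_of_injective (LinearMap.ker_eq_bot.2 hι)
  have h2 : IsClosedEmbedding (fun w : W => o + w) := (Homeomorph.addLeft o).isClosedEmbedding
  exact (h2.comp h1).isCompact_preimage hM

lemma pull_convex (hc : Convex ℝ M) : Convex ℝ (pull ι o M) :=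
  (hc.translate_preimage_right o).linear_preimage ι

lemma rho_pull (v : V) : rho (pull ι o M) 0 v = rho M o (ι v) := by
  unfold rho
  rw [gauge_def', gauge_def']
  congr 1
  ext r
  simp [pull]

lemma zero_mem_interior_pull (ho : o ∈ interior M) : (0 : V) ∈ interior (pull ι o M) := by
  rw [_root_.mem_interior]
  refine ⟨(fun v => o + ι v) ⁻¹' (interior M), preimage_mono interior_subset,
    isOpen_interior.preimage pull_cont, ?_⟩
  simpa using ho

lemma mem_interior_pull (hc : Convex ℝ M) (ho : o ∈ interior M) (v : V) :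
    v ∈ interior (pull ι o M) ↔ o + ι v ∈ interior M := by
  rw [← rho_lt_one_iff hc ho, ← rho_pull]
  have := rho_lt_one_iff (v := v) (pull_convex (ι := ι) (o := o) hc) (zero_mem_interior_pull ho)
  rw [zero_add] at this
  exact this.symm

lemma mem_frontier_pull (hc : Convex ℝ M) (ho : o ∈ interior M) (v : V) :
    v ∈ frontier (pull ι o M) ↔ o + ι v ∈ frontier M := by
  rw [← rho_eq_one_iff hc ho, ← rho_pull]
  have := rho_eq_one_iff (v := v) (pull_convex (ι := ι) (o := o) hc) (zero_mem_interior_pull ho)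
  rw [zero_add] at this
  exact this.symm

lemma graze_pull (hc : Convex ℝ M) (ho : o ∈ interior M) {x y : V}
    (hy : y ∈ Graze (pull ι o M) x) : o + ι y ∈ Graze M (o + ι x) := by
  refine ⟨hy.1, fun t ht => hy.2 t ?_⟩
  rw [mem_interior_pull hc ho]
  convert ht using 1
  rw [map_add, map_smul, map_sub]
  have : o + ι y - (o + ι x) = ι y - ι x := by abel
  rw [this]
  abel

lemma flat_pull {K : Set W} (hc : Convex ℝ M) (hcK : Convex ℝ K) (ho : o ∈ interior M)
    (hoK : o ∈ interior K) (h : FlatHyp M K) : FlatHyp (pull ι o M) (pull ι o K) := by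
  intro x hx
  rw [mem_frontier_pull hcK hoK] at hx
  obtain ⟨η, hη⟩ := h _ hx
  refine ⟨LinearMap.toContinuousLinearMap (η.toLinearMap ∘ₗ ι), fun y hy => ?_⟩
  have h1 := hη _ (graze_pull hc ho hy)
  have h2 : o + ι y - (o + ι x) = ι (y - x) := by rw [map_sub]; abel
  rw [h2] at h1
  exact h1

end pull

/-- The three-dimensional local statement. -/
def Core3 : Prop := ∀ (M K : Set E3), IsCompact M → Convex ℝ M → (interior M).Nonempty →
  IsCompact K → Convex ℝ K → M ⊆ interior K → FlatHyp M K →
  ∀ p ∈ frontier M, ∃ U ∈ 𝓝 p, ∃ f : E3 → ℝ, IsQuadPoly f ∧ (∃ x, f x ≠ 0) ∧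
    ∀ y ∈ frontier M, y ∈ U → f y = 0

/-- Flatness: contained in an affine hyperplane. -/
def IsFlat {n : ℕ} (S : Set (EuclideanSpace ℝ (Fin n))) : Prop :=
  ∃ (a : EuclideanSpace ℝ (Fin n)) (c : ℝ), a ≠ 0 ∧ ∀ y ∈ S, inner ℝ a y = c

theorem main_of_core (hcore : Core3) {n : ℕ} (hn : 3 ≤ n) (M K : Set (EuclideanSpace ℝ (Fin n)))
    (hM : IsCompact M) (hMc : Convex ℝ M) (hMi : (interior M).Nonempty)
    (hK : IsCompact K) (hKc : Convex ℝ K) (hMK : M ⊆ interior K)
    (hflat : ∀ x ∈ frontier K, IsFlat (Graze M x)) :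
    ∃ A : EuclideanSpace ℝ (Fin n) ≃ᵃ[ℝ] EuclideanSpace ℝ (Fin n),
      M = A '' closedBall 0 1 := by
  have hH : FlatHyp M K := by
    intro x hx
    obtain ⟨a, c, ha, hac⟩ := hflat x hx
    have hxM : x ∉ M := fun h => hx.2 (hMK h)
    refine flat_normal (by simp; omega) hM hMc hMi hxM (g := innerSL ℝ a) ?_ (c := c) ?_
    · intro h
      apply ha
      have : innerSL ℝ a a = 0 := by rw [h]; rfl
      simpa using this
    · intro y hy
      simpa using hac y hy
  obtain ⟨o, ho⟩ := hMi
  have hoK : o ∈ interior K := hMK (interior_subset ho)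
  obtain ⟨Q, l, hQl⟩ := assemble (W := EuclideanSpace ℝ (Fin n)) (by simpa using hn) (rho M o) (by
    intro ι hι
    have c1 := pull_compact (o := o) hι hM
    have c2 := pull_convex (ι := ι) (o := o) hMc
    have c3 := zero_mem_interior_pull (ι := ι) ho
    have c4 := pull_compact (o := o) hι hK
    have c5 := pull_convex (ι := ι) (o := o) hKc
    have c6 : pull ι o M ⊆ interior (pull ι o K) := by
      intro v hv
      rw [mem_interior_pull hKc hoK]
      exact hMK hv
    have c7 := flat_pull (ι := ι) hMc hKc ho hoK hH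
    have hloc := hcore _ _ c1 c2 ⟨0, c3⟩ c4 c5 c6 c7
    have hs := strictConvex_of_flat c2 ⟨0, c3⟩ c4 c5 c6 c7
    have hrank : 1 < Module.rank ℝ E3 := by
      rw [← Module.finrank_eq_rank]
      simp
    obtain ⟨f, hf, hf0, hfM⟩ := exists_global _ c1 hs ⟨0, c3⟩ hrank IsQuadPoly
      (fun f hf => hf.lineQuad) hloc
    obtain ⟨Q, l, h⟩ := normal_form c1.isBounded c2 c3 hf hf0 hfM
    refine ⟨Q, l, fun v => ?_⟩
    have h1 := h v
    rw [rho_pull, rho_pull, map_neg] at h1
    exact h1)
  exact ellipsoid_of_forms hM hMc ho Q l hQl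

end Pool.Agent.Graze77
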