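import Pool.Agent.Graze77.Body

/-!
Grazes and supporting functionals; the normalised functional of a flat graze; strict convexity.
-/

namespace Pool.Agent.Graze77

open Set Metric Topology Filter

set_option linter.unusedSectionVars false

variable {V : Type*} [NormedAddCommGroup V] [NormedSpace ℝ V]

/-- A functional is strictly smaller in the interior. -/
lemma lt_of_mem_interior {M : Set V} {f : V →L[ℝ] ℝ} (hf : f ≠ 0) {c : ℝ}
    (h : ∀ m ∈ M, f m ≤ c) {z : V} (hz : z ∈ interior M) : f z < c := by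
  have h1 : IsOpen (f '' interior M) := f.isOpenMap_of_ne_zero hf _ isOpen_interior
  have h2 : f '' interior M ⊆ Iic c := by
    rintro _ ⟨m, hm, rfl⟩
    exact h m (interior_subset hm)
  have h3 := interior_maximal h2 h1
  rw [interior_Iic] at h3
  exact h3 ⟨z, hz, rfl⟩

lemma mem_graze_of_support {M : Set V} {x y : V} {f : V →L[ℝ] ℝ} (hf : f ≠ 0) (hy : y ∈ M)
    (h : ∀ m ∈ M, f m ≤ f y) (hx : f x = f y) : y ∈ Graze M x := by
  refine ⟨hy, fun t ht => ?_⟩
  have := lt_of_mem_interior hf h ht
  rw [map_add, map_smul, map_sub, hx] at this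
  simp at this

lemma exists_support_of_mem_graze {M : Set V} (hc : Convex ℝ M) (hi : (interior M).Nonempty)
    {x y : V} (hy : y ∈ Graze M x) :
    ∃ f : V →L[ℝ] ℝ, f ≠ 0 ∧ (∀ m ∈ M, f m ≤ f y) ∧ f x = f y := by
  set L : Set V := range (fun t : ℝ => x + t • (y - x)) with hL
  have hLc : Convex ℝ L := by
    rintro _ ⟨s, rfl⟩ _ ⟨t, rfl⟩ a b ha hb hab
    refine ⟨a * s + b * t, ?_⟩
    simp only [smul_add, smul_smul, add_smul]
    have : x = a • x + b • x := by rw [← add_smul, hab, one_smul]
    nth_rewrite 1 [this]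
    abel
  have hdisj : Disjoint (interior M) L := by
    rw [Set.disjoint_right]
    rintro _ ⟨t, rfl⟩
    exact hy.2 t
  obtain ⟨f, u, hf, h1, h2⟩ := geometric_hahn_banach_of_nonempty_interior hc hLc hdisj hi
    ⟨x, 0, by simp⟩
  have h3 : f (y - x) = 0 := by
    by_contra hne
    have h4 := h2 _ ⟨(u - 1 - f x) / f (y - x), rfl⟩
    rw [map_add, map_smul, smul_eq_mul, div_mul_cancel₀ _ hne] at h4
    linarith
  have h4 : f x = f y := by rw [map_sub] at h3; linarith
  refine ⟨f, hf, fun m hm => (h1 m hm).trans ?_, h4⟩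
  have := h2 x ⟨0, by simp⟩
  rw [← h4]; exact this

/-- Extremal ratios are attained on the graze. -/
lemma max_ratio {M : Set V} (hM : IsCompact M) (hne : M.Nonempty) {x : V} {e w : V →L[ℝ] ℝ}
    (he : ∀ m ∈ M, 0 < e (m - x)) :
    ∃ m ∈ M, ∀ m' ∈ M, w (m' - x) * e (m - x) ≤ w (m - x) * e (m' - x) := by
  have hcont : ContinuousOn (fun m => w (m - x) / e (m - x)) M := by
    apply ContinuousOn.div (by fun_prop) (by fun_prop)
    intro m hm
    exact (he m hm).ne'
  obtain ⟨m, hm, hmax⟩ := hM.exists_isMaxOn hne hcont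
  refine ⟨m, hm, fun m' hm' => ?_⟩
  have h1 : w (m' - x) / e (m' - x) ≤ w (m - x) / e (m - x) := hmax hm'
  rw [div_le_div_iff₀ (he m' hm') (he m hm)] at h1
  exact h1

/-- The extremal point is in the graze, unless `w` is a multiple of `e`. -/
lemma max_ratio_graze {M : Set V} (hM : IsCompact M) (hne : M.Nonempty) {x : V}
    {e w : V →L[ℝ] ℝ} (he : ∀ m ∈ M, 0 < e (m - x)) (hw : ∀ s : ℝ, w ≠ s • e) :
    ∃ m ∈ Graze M x, ∀ m' ∈ M, w (m' - x) * e (m - x) ≤ w (m - x) * e (m' - x) := by
  obtain ⟨m, hm, h⟩ := max_ratio hM hne (w := w) he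
  refine ⟨m, ?_, h⟩
  have hep := he m hm
  set s := w (m - x) / e (m - x) with hs
  have hf : w - s • e ≠ 0 := fun h0 => hw s (sub_eq_zero.1 h0)
  have hmx : (w - s • e) (m - x) = 0 := by
    simp only [sub_apply, smul_apply, smul_eq_mul]
    rw [hs, div_mul_cancel₀ _ hep.ne', sub_self]
  apply mem_graze_of_support hf hm
  · intro m' hm'
    have h1 : (w - s • e) (m' - x) ≤ 0 := by
      simp only [sub_apply, smul_apply, smul_eq_mul]
      rw [hs, div_mul_eq_mul_div, sub_nonpos, le_div_iff₀ hep]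
      exact h m' hm'
    have h2 : (w - s • e) m' = (w - s • e) (m' - x) + (w - s • e) x := by rw [map_sub]; ring
    have h3 : (w - s • e) m = (w - s • e) (m - x) + (w - s • e) x := by rw [map_sub]; ring
    rw [h2, h3, hmx]
    linarith
  · rw [map_sub] at hmx
    linarith

/-- a separating functional -/
lemma exists_sep {M : Set V} (hM : IsCompact M) (hc : Convex ℝ M) {x : V} (hx : x ∉ M) :
    ∃ e : V →L[ℝ] ℝ, ∀ m ∈ M, 0 < e (m - x) := by
  obtain ⟨f, u, h1, h2⟩ := geometric_hahn_banach_point_closed hc hM.isClosed hx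
  exact ⟨f, fun m hm => by rw [map_sub]; linarith [h2 m hm]⟩

/-- Flatness of the graze, normalised. -/
theorem flat_normal [FiniteDimensional ℝ V] (hV : 1 < Module.finrank ℝ V) {M : Set V}
    (hM : IsCompact M)
    (hc : Convex ℝ M) (hi : (interior M).Nonempty) {x : V} (hx : x ∉ M)
    {g : V →L[ℝ] ℝ} (hg : g ≠ 0) {c : ℝ} (hflat : ∀ y ∈ Graze M x, g y = c) :
    ∃ η : V →L[ℝ] ℝ, ∀ y ∈ Graze M x, η (y - x) = 1 := by
  by_cases hgx : g x = c
  · exfalso
    have hne : M.Nonempty := hi.mono interior_subset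
    obtain ⟨e, he⟩ := exists_sep hM hc hx
    have hflat' : ∀ y ∈ Graze M x, g (y - x) = 0 := by
      intro y hy; rw [map_sub, hflat y hy, hgx, sub_self]
    have he0 : e ≠ 0 := by
      rintro rfl
      obtain ⟨m, hm⟩ := hne
      simpa using he m hm
    by_cases hge : ∃ s : ℝ, g = s • e
    · obtain ⟨s, rfl⟩ := hge
      have hs : s ≠ 0 := by rintro rfl; simp at hg
      -- find a functional not proportional to e
      obtain ⟨w, hw⟩ : ∃ w : V →L[ℝ] ℝ, ∀ t : ℝ, w ≠ t • e := by
        by_contra hcon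
        push Not at hcon
        have h1 : ∀ f : V →L[ℝ] ℝ, f ∈ Submodule.span ℝ {e} := fun f => by
          obtain ⟨t, ht⟩ := hcon f
          rw [ht]
          exact Submodule.smul_mem _ _ (Submodule.mem_span_singleton_self e)
        have h2 : (⊤ : Submodule ℝ (V →L[ℝ] ℝ)) ≤ Submodule.span ℝ {e} := fun f _ => h1 f
        have h3 : Module.finrank ℝ (V →L[ℝ] ℝ) ≤ 1 := by
          have h4 := finrank_span_singleton (K := ℝ) he0
          rw [← finrank_top ℝ (V →L[ℝ] ℝ)]
          calc _ ≤ Module.finrank ℝ (Submodule.span ℝ {e}) := Submodule.finrank_mono h2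
            _ = 1 := h4
            _ ≤ 1 := le_rfl
        have h5 : Module.finrank ℝ (V →L[ℝ] ℝ) = Module.finrank ℝ V := by
          rw [← Subspace.dual_finrank_eq (K := ℝ) (V := V)]
          exact (LinearMap.toContinuousLinearMap (𝕜 := ℝ) (E := V) (F' := ℝ)).symm.finrank_eq
        omega
      obtain ⟨m, hm, -⟩ := max_ratio_graze hM hne he hw
      have h1 := hflat' m hm
      have h2 := he m hm.1
      simp only [smul_apply, smul_eq_mul] at h1
      exact (mul_ne_zero hs h2.ne') h1
    · push Not at hge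
      obtain ⟨m, hm, h1⟩ := max_ratio_graze hM hne he hge
      obtain ⟨m', hm', h2⟩ := max_ratio_graze hM hne (w := -g) he (by
        intro s hs
        apply hge (-s)
        ext v
        have h0 : (-g) v = (s • e) v := by rw [hs]
        simp only [neg_apply, smul_apply, smul_eq_mul] at h0 ⊢
        linarith)
      have hz : ∀ z ∈ M, g (z - x) = 0 := by
        intro z hz
        have a1 := h1 z hz
        have a2 := h2 z hz
        rw [hflat' m hm, zero_mul] at a1
        have b2 := he m hm.1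
        have b3 := he m' hm'.1
        simp only [neg_apply, hflat' m' hm', neg_zero, zero_mul] at a2
        nlinarith
      obtain ⟨z, hz'⟩ := hi
      have h3 : ∀ m ∈ M, g m ≤ g x := by
        intro m hm
        have := hz m hm
        rw [map_sub] at this
        linarith
      have h4 := lt_of_mem_interior hg h3 hz'
      have h5 := hz z (interior_subset hz')
      rw [map_sub] at h5
      linarith
  · refine ⟨(c - g x)⁻¹ • g, fun y hy => ?_⟩
    simp only [smul_apply, smul_eq_mul]
    rw [map_sub, hflat y hy]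
    exact inv_mul_cancel₀ (sub_ne_zero.2 (Ne.symm hgx))

/-- The hypothesis in normalised form. -/
def FlatHyp (M K : Set V) : Prop :=
  ∀ x ∈ frontier K, ∃ η : V →L[ℝ] ℝ, ∀ y ∈ Graze M x, η (y - x) = 1

/-- A line through an interior point leaves `K`. -/
lemma exists_exit {K : Set V} (hb : Bornology.IsBounded K) (hKc : Convex ℝ K) {y d : V}
    (hy : y ∈ interior K) (hd : d ≠ 0) : ∃ t : ℝ, 0 < t ∧ y + t • d ∈ frontier K :=
  ⟨_, inv_pos.2 (rho_pos hb hy hd), exit_mem hb hKc hy hd⟩

theorem strictConvex_of_flat {M K : Set V} (hMc : Convex ℝ M)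
    (hi : (interior M).Nonempty) (hK : IsCompact K) (hKc : Convex ℝ K) (hMK : M ⊆ interior K)
    (hflat : FlatHyp M K) : StrictConvex ℝ M := by
  intro y1 hy1 y2 hy2 hne a b ha hb hab
  by_contra hz
  obtain ⟨f, hf, hfz⟩ := geometric_hahn_banach_of_nonempty_interior_point hMc hz hi
  have h1 := hfz y1 hy1
  have h2 := hfz y2 hy2
  simp only [map_add, map_smul, smul_eq_mul] at h1 h2 hfz
  have e12 : f y1 = f y2 := by
    have hb' : b = 1 - a := by linarith
    subst hb'
    nlinarith
  have hmax : ∀ m ∈ M, f m ≤ f y1 := by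
    intro m hm
    have := hfz m hm
    rw [← e12, ← add_mul, hab, one_mul] at this
    exact this
  obtain ⟨t, ht, htx⟩ := exists_exit hK.isBounded hKc (hMK hy2) (sub_ne_zero.2 hne.symm)
  set x := y2 + t • (y2 - y1) with hx
  have hfx : f x = f y1 := by
    rw [hx, map_add, map_smul, map_sub, e12]; simp
  obtain ⟨η, hη⟩ := hflat x htx
  have g1 : y1 ∈ Graze M x := mem_graze_of_support hf hy1 hmax hfx
  have g2 : y2 ∈ Graze M x := mem_graze_of_support hf hy2 (by rwa [← e12]) (by rw [← e12]; exact hfx)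
  have k1 := hη _ g1
  have k2 := hη _ g2
  have l1 : y1 - x = (-(1 + t)) • (y2 - y1) := by
    rw [hx, neg_smul, add_smul, one_smul]; abel
  have l2 : y2 - x = (-t) • (y2 - y1) := by rw [hx, neg_smul]; abel
  rw [l1, map_smul, smul_eq_mul] at k1
  rw [l2, map_smul, smul_eq_mul] at k2
  have : η (y2 - y1) = 0 := by linarith
  rw [this] at k1
  simp at k1

end Pool.Agent.Graze77
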