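import Mathlib

/-!
Smooth boundary points are dense: touching points of inner balls.
-/

namespace Pool.Agent.Graze77

open Set Metric Topology Filter

theorem smooth_dense {M : Set (EuclideanSpace ℝ (Fin 3))} (Mc : IsCompact M) (Mcv : Convex ℝ M)
    (Mint : (interior M).Nonempty) {p : EuclideanSpace ℝ (Fin 3)} (hp : p ∈ frontier M)
    {ε : ℝ} (hε : 0 < ε) :
    ∃ p₁ ∈ frontier M, dist p₁ p < ε ∧ ∃ f : EuclideanSpace ℝ (Fin 3) →L[ℝ] ℝ, f ≠ 0 ∧
      (∀ y ∈ M, f y ≤ f p₁) ∧ ∀ F : EuclideanSpace ℝ (Fin 3) →L[ℝ] ℝ, F ≠ 0 →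
        (∀ y ∈ M, F y ≤ F p₁) → ∃ c : ℝ, F = c • f := by
  -- an interior point close to `p`
  have hpcl : p ∈ closure (interior M) := by
    rw [Mcv.closure_interior_eq_closure_of_nonempty_interior Mint]
    exact frontier_subset_closure hp
  obtain ⟨a, ha, hap⟩ := Metric.mem_closure_iff.1 hpcl (ε / 2) (by linarith)
  -- the nearest frontier point
  have hfc : IsCompact (frontier M) := Mc.of_isClosed_subset isClosed_frontier Mc.isClosed.frontier_subset
  obtain ⟨p₁, hp₁, hmin⟩ := hfc.exists_isMinOn ⟨p, hp⟩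
    (f := fun z => dist a z) (by fun_prop)
  have hr1 : dist a p₁ ≤ dist a p := hmin hp
  set n := p₁ - a with hn
  have hnr : dist a p₁ = ‖n‖ := by rw [dist_comm, dist_eq_norm]
  have hap₁ : a ≠ p₁ := by
    rintro rfl
    exact hp₁.2 ha
  have hnpos : 0 < ‖n‖ := by rw [← hnr]; exact dist_pos.2 hap₁
  have hball : ball a ‖n‖ ⊆ M := by
    by_contra hcon
    rw [Set.not_subset] at hcon
    obtain ⟨z, hz, hzM⟩ := hcon
    have h1 : IsPreconnected (ball a ‖n‖) := (convex_ball a _).isPreconnected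
    obtain ⟨w, _, hw1, hw2⟩ := h1 (interior M) Mᶜ isOpen_interior Mc.isClosed.isOpen_compl
      (by
        intro w hw
        by_cases hwM : w ∈ M
        · left
          by_contra hwi
          have h2 : dist a p₁ ≤ dist a w := hmin ⟨subset_closure hwM, hwi⟩
          rw [mem_ball, dist_comm] at hw
          linarith
        · exact Or.inr hwM)
      ⟨a, mem_ball_self hnpos, ha⟩ ⟨z, hz, hzM⟩
    exact hw2 (interior_subset hw1)
  -- support functionals at `p₁`
  have key : ∀ F : EuclideanSpace ℝ (Fin 3) →L[ℝ] ℝ, F ≠ 0 → (∀ y ∈ M, F y ≤ F p₁) →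
      ∃ c : ℝ, 0 < c ∧ F = c • (innerSL ℝ n) := by
    intro F hF hFM
    set w := (InnerProductSpace.toDual ℝ (EuclideanSpace ℝ (Fin 3))).symm F with hw
    have hFw : ∀ v, F v = inner ℝ w v := fun v => by
      rw [hw, InnerProductSpace.toDual_symm_apply]
    have hw0 : w ≠ 0 := by
      intro h
      apply hF
      ext v
      rw [hFw, h]; simp
    have hwpos : 0 < ‖w‖ := norm_pos_iff.2 hw0
    have h1 : ∀ s : ℝ, 0 < s → s < ‖n‖ → s * ‖w‖ ≤ inner ℝ w n := by
      intro s hs hsn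
      have h2 : a + (s / ‖w‖) • w ∈ M := by
        apply hball
        rw [mem_ball, dist_eq_norm, add_sub_cancel_left, norm_smul, Real.norm_eq_abs,
          abs_of_pos (by positivity), div_mul_cancel₀ _ hwpos.ne']
        exact hsn
      have h3 := hFM _ h2
      have h4 : p₁ = a + n := by rw [hn]; abel
      rw [h4, hFw, hFw, inner_add_right, inner_add_right, inner_smul_right,
        real_inner_self_eq_norm_sq] at h3
      have h5 : s / ‖w‖ * ‖w‖ ^ 2 = s * ‖w‖ := by field_simp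
      rw [h5] at h3
      linarith
    have h2 : ‖n‖ * ‖w‖ ≤ inner ℝ w n := by
      by_contra hcon
      push Not at hcon
      have h3 := h1 (‖n‖ / 2) (by linarith) (by linarith)
      have h0 : 0 < inner ℝ w n := lt_of_lt_of_le (by positivity) h3
      -- choose s between
      have h4 : inner ℝ w n / ‖w‖ < ‖n‖ := by rw [div_lt_iff₀ hwpos]; exact hcon
      have h5 := h1 ((inner ℝ w n / ‖w‖ + ‖n‖) / 2)
        (by have : 0 < inner ℝ w n / ‖w‖ := by positivity
            linarith) (by linarith)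
      have h6 : inner ℝ w n / ‖w‖ * ‖w‖ = inner ℝ w n := div_mul_cancel₀ _ hwpos.ne'
      have h7 : (inner ℝ w n / ‖w‖ + ‖n‖) / 2 * ‖w‖ = (inner ℝ w n + ‖n‖ * ‖w‖) / 2 := by
        rw [div_mul_eq_mul_div, add_mul, h6]
      rw [h7] at h5
      linarith
    have h3 : inner ℝ w n = ‖w‖ * ‖n‖ := by
      apply le_antisymm (real_inner_le_norm w n)
      rw [mul_comm]; exact h2
    have h4 := inner_eq_norm_mul_iff_real.1 h3
    refine ⟨‖w‖ / ‖n‖, by positivity, ?_⟩
    ext v
    rw [hFw]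
    have h5 : w = (‖w‖ / ‖n‖) • n := by
      rw [div_eq_inv_mul, mul_smul, ← h4, smul_smul, inv_mul_cancel₀ hnpos.ne', one_smul]
    nth_rewrite 1 [h5]
    rw [inner_smul_left]
    simp
  have hp₁int : p₁ ∉ interior M := hp₁.2
  obtain ⟨F, hF, hFM⟩ := geometric_hahn_banach_of_nonempty_interior_point Mcv hp₁int Mint
  obtain ⟨c, hc, hcF⟩ := key F hF hFM
  refine ⟨p₁, hp₁, ?_, innerSL ℝ n, ?_, ?_, ?_⟩
  · calc dist p₁ p ≤ dist p₁ a + dist a p := dist_triangle _ _ _
      _ < ε := by rw [dist_comm p₁ a, dist_comm a p] at *; linarith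
  · intro h
    rw [h, smul_zero] at hcF
    exact hF hcF
  · intro y hy
    have h1 := hFM y hy
    rw [hcF] at h1
    simp only [smul_apply, smul_eq_mul] at h1
    exact le_of_mul_le_mul_left h1 hc
  · intro F' hF' hFM'
    obtain ⟨c', _, h⟩ := key F' hF' hFM'
    exact ⟨c', h⟩

end Pool.Agent.Graze77
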